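import Mathlib

/-!
# MP_f969e6_lc, Q1: a non-square iso-dual trinomial code

We disprove Q1: for `n = 20`, `i = 10` and
`g = X^10 + X^9 + X^7 + X^6 + X^2 + X + 1`, a monic divisor of `X^20 + X^10 + 1` over `F_2`
with `g^2 ≠ X^20 + X^10 + 1`, the binary polycyclic code of length 20 generated by `g` is
iso-dual: the permutation `k ↦ k + 10` of the coordinates maps it onto its dual.
-/

namespace Pool.Agent.Results.MP_f969e6_lc.IsoDual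

open Polynomial

/-- The trinomial `t(x) = x^n + x^i + 1` over `F_2`. -/
noncomputable def t (n i : ℕ) : (ZMod 2)[X] := X ^ n + X ^ i + 1

/-- The polynomial `c_0 + c_1 x + ... + c_{n-1} x^{n-1}` of a word `c` of length `n`. -/
noncomputable def toPoly (n : ℕ) (c : Fin n → ZMod 2) : (ZMod 2)[X] :=
  ∑ j : Fin n, C (c j) * X ^ (j : ℕ)

/-- The polycyclic code generated by `g`: the words `c` of length `n` whose class
in `F_2[x]/(t(x))` lies in the ideal generated by the class of `g`. -/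
def code (n i : ℕ) (g : (ZMod 2)[X]) : Set (Fin n → ZMod 2) :=
  {c | Ideal.Quotient.mk (Ideal.span {t n i}) (toPoly n c) ∈
    Ideal.span {Ideal.Quotient.mk (Ideal.span {t n i}) g}}

/-- The dual with respect to the standard inner product `∑ u_k v_k`. -/
def dual {n : ℕ} (D : Set (Fin n → ZMod 2)) : Set (Fin n → ZMod 2) :=
  {u | ∀ v ∈ D, ∑ k, u k * v k = 0}

/-- `D` is iso-dual: some permutation of the coordinates maps `D` onto its dual. -/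
def IsIsoDual {n : ℕ} (D : Set (Fin n → ZMod 2)) : Prop :=
  ∃ σ : Equiv.Perm (Fin n), (fun (u : Fin n → ZMod 2) (k : Fin n) => u (σ k)) '' D = dual D

/-- The statement of Q1. -/
def Q1 : Prop :=
  ∀ n i : ℕ, 1 ≤ i → i < n → ∀ g : (ZMod 2)[X], g.Monic → g ∣ t n i →
    (IsIsoDual (code n i g) ↔ g ^ 2 = t n i)

theorem two_eq_zero : (2 : (ZMod 2)[X]) = 0 := by
  exact CharTwo.two_eq_zero

/-- Membership in the code is divisibility by the generator. -/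
theorem mem_code_iff {n i : ℕ} {g : (ZMod 2)[X]} (hg : g ∣ t n i) (c : Fin n → ZMod 2) :
    c ∈ code n i g ↔ g ∣ toPoly n c := by
  unfold code
  rw [Set.mem_ofPred_eq, Ideal.mem_span_singleton]
  constructor
  · rintro ⟨q, hq⟩
    obtain ⟨q', rfl⟩ := Ideal.Quotient.mk_surjective q
    rw [← map_mul, Ideal.Quotient.eq, Ideal.mem_span_singleton] at hq
    have h1 : g ∣ toPoly n c - g * q' := hg.trans hq
    have h2 : g ∣ (toPoly n c - g * q') + g * q' := dvd_add h1 (dvd_mul_right _ _)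
    simpa using h2
  · rintro ⟨q, hq⟩
    exact ⟨Ideal.Quotient.mk _ q, by rw [hq, map_mul]⟩

/-- The generator. -/
noncomputable def g0 : (ZMod 2)[X] := X ^ 10 + X ^ 9 + X ^ 7 + X ^ 6 + X ^ 2 + X + 1

/-- The cofactor. -/
noncomputable def h0 : (ZMod 2)[X] := X ^ 10 + X ^ 9 + X ^ 8 + X ^ 4 + X ^ 3 + X + 1

theorem g0_dvd : g0 ∣ t 20 10 := by
  refine ⟨h0, ?_⟩
  unfold g0 h0 t
  linear_combination ((-1) * X ^ 19 + (-1) * X ^ 18 + (-1) * X ^ 17 + (-1) * X ^ 16 + (-1) * X ^ 15 + (-1) * X ^ 14 + (-1) * X ^ 13 + (-1) * X ^ 12 + (-2) * X ^ 11 + (-3) * X ^ 10 + (-2) * X ^ 9 + (-1) * X ^ 8 + (-1) * X ^ 7 + (-1) * X ^ 6 + (-1) * X ^ 5 + (-1) * X ^ 4 + (-1) * X ^ 3 + (-1) * X ^ 2 + (-1) * X) * two_eq_zero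

/-- Parity check matrix: the column `j` holds the coefficients of `X ^ j mod g0`. -/
def R : Fin 10 → Fin 20 → ZMod 2 :=
  ![![1, 0, 0, 0, 0, 0, 0, 0, 0, 0, 1, 1, 1, 0, 0, 0, 1, 1, 0, 1],
    ![0, 1, 0, 0, 0, 0, 0, 0, 0, 0, 1, 0, 0, 1, 0, 0, 1, 0, 1, 1],
    ![0, 0, 1, 0, 0, 0, 0, 0, 0, 0, 1, 0, 1, 0, 1, 0, 1, 0, 0, 0],
    ![0, 0, 0, 1, 0, 0, 0, 0, 0, 0, 0, 1, 0, 1, 0, 1, 0, 1, 0, 0],
    ![0, 0, 0, 0, 1, 0, 0, 0, 0, 0, 0, 0, 1, 0, 1, 0, 1, 0, 1, 0],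
    ![0, 0, 0, 0, 0, 1, 0, 0, 0, 0, 0, 0, 0, 1, 0, 1, 0, 1, 0, 1],
    ![0, 0, 0, 0, 0, 0, 1, 0, 0, 0, 1, 1, 1, 0, 1, 0, 0, 1, 1, 1],
    ![0, 0, 0, 0, 0, 0, 0, 1, 0, 0, 1, 0, 0, 1, 0, 1, 1, 1, 1, 0],
    ![0, 0, 0, 0, 0, 0, 0, 0, 1, 0, 0, 1, 0, 0, 1, 0, 1, 1, 1, 1],
    ![0, 0, 0, 0, 0, 0, 0, 0, 0, 1, 1, 1, 0, 0, 0, 1, 1, 0, 1, 0]]

/-- `Q s k = 1` exactly when `k = s + 10`. -/
def Q : Fin 10 → Fin 20 → ZMod 2 := fun s k => if (k : ℕ) = (s : ℕ) + 10 then 1 else 0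

theorem X_pow_mod (j : Fin 20) :
    g0 ∣ (X : (ZMod 2)[X]) ^ (j : ℕ) - ∑ s : Fin 10, C (R s j) * X ^ (s : ℕ) := by
  fin_cases j
  · refine ⟨0, ?_⟩
    simp [R, Fin.sum_univ_succ]
  · refine ⟨0, ?_⟩
    simp [R, Fin.sum_univ_succ]
  · refine ⟨0, ?_⟩
    simp [R, Fin.sum_univ_succ]
  · refine ⟨0, ?_⟩
    simp [R, Fin.sum_univ_succ]
  · refine ⟨0, ?_⟩
    simp [R, Fin.sum_univ_succ]
  · refine ⟨0, ?_⟩
    simp [R, Fin.sum_univ_succ]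
  · refine ⟨0, ?_⟩
    simp [R, Fin.sum_univ_succ]
  · refine ⟨0, ?_⟩
    simp [R, Fin.sum_univ_succ]
  · refine ⟨0, ?_⟩
    simp [R, Fin.sum_univ_succ]
  · refine ⟨0, ?_⟩
    simp [R, Fin.sum_univ_succ]
  · refine ⟨1, ?_⟩
    have hs : ∑ s : Fin 10, C (R s 10) * (X : (ZMod 2)[X]) ^ (s : ℕ) = X ^ 9 + X ^ 7 + X ^ 6 + X ^ 2 + X + 1 := by
      simp [R, Fin.sum_univ_succ]
      try ring
    change (X : (ZMod 2)[X]) ^ 10 - ∑ s : Fin 10, C (R s 10) * (X : (ZMod 2)[X]) ^ (s : ℕ) = _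
    rw [hs]
    unfold g0
    linear_combination ((-1) * X ^ 9 + (-1) * X ^ 7 + (-1) * X ^ 6 + (-1) * X ^ 2 + (-1) * X + (-1) * 1) * two_eq_zero
  · refine ⟨X + 1, ?_⟩
    have hs : ∑ s : Fin 10, C (R s 11) * (X : (ZMod 2)[X]) ^ (s : ℕ) = X ^ 9 + X ^ 8 + X ^ 6 + X ^ 3 + 1 := by
      simp [R, Fin.sum_univ_succ]
      try ring
    change (X : (ZMod 2)[X]) ^ 11 - ∑ s : Fin 10, C (R s 11) * (X : (ZMod 2)[X]) ^ (s : ℕ) = _
    rw [hs]
    unfold g0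
    linear_combination ((-1) * X ^ 10 + (-1) * X ^ 9 + (-1) * X ^ 8 + (-1) * X ^ 7 + (-1) * X ^ 6 + (-1) * X ^ 3 + (-1) * X ^ 2 + (-1) * X + (-1) * 1) * two_eq_zero
  · refine ⟨X ^ 2 + X + 1, ?_⟩
    have hs : ∑ s : Fin 10, C (R s 12) * (X : (ZMod 2)[X]) ^ (s : ℕ) = X ^ 6 + X ^ 4 + X ^ 2 + 1 := by
      simp [R, Fin.sum_univ_succ]
      try ring
    change (X : (ZMod 2)[X]) ^ 12 - ∑ s : Fin 10, C (R s 12) * (X : (ZMod 2)[X]) ^ (s : ℕ) = _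
    rw [hs]
    unfold g0
    linear_combination ((-1) * X ^ 11 + (-1) * X ^ 10 + (-1) * X ^ 9 + (-1) * X ^ 8 + (-1) * X ^ 7 + (-1) * X ^ 6 + (-1) * X ^ 4 + (-1) * X ^ 3 + (-2) * X ^ 2 + (-1) * X + (-1) * 1) * two_eq_zero
  · refine ⟨X ^ 3 + X ^ 2 + X, ?_⟩
    have hs : ∑ s : Fin 10, C (R s 13) * (X : (ZMod 2)[X]) ^ (s : ℕ) = X ^ 7 + X ^ 5 + X ^ 3 + X := by
      simp [R, Fin.sum_univ_succ]
      try ring
    change (X : (ZMod 2)[X]) ^ 13 - ∑ s : Fin 10, C (R s 13) * (X : (ZMod 2)[X]) ^ (s : ℕ) = _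
    rw [hs]
    unfold g0
    linear_combination ((-1) * X ^ 12 + (-1) * X ^ 11 + (-1) * X ^ 10 + (-1) * X ^ 9 + (-1) * X ^ 8 + (-1) * X ^ 7 + (-1) * X ^ 5 + (-1) * X ^ 4 + (-2) * X ^ 3 + (-1) * X ^ 2 + (-1) * X) * two_eq_zero
  · refine ⟨X ^ 4 + X ^ 3 + X ^ 2, ?_⟩
    have hs : ∑ s : Fin 10, C (R s 14) * (X : (ZMod 2)[X]) ^ (s : ℕ) = X ^ 8 + X ^ 6 + X ^ 4 + X ^ 2 := by
      simp [R, Fin.sum_univ_succ]
      try ring
    change (X : (ZMod 2)[X]) ^ 14 - ∑ s : Fin 10, C (R s 14) * (X : (ZMod 2)[X]) ^ (s : ℕ) = _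
    rw [hs]
    unfold g0
    linear_combination ((-1) * X ^ 13 + (-1) * X ^ 12 + (-1) * X ^ 11 + (-1) * X ^ 10 + (-1) * X ^ 9 + (-1) * X ^ 8 + (-1) * X ^ 6 + (-1) * X ^ 5 + (-2) * X ^ 4 + (-1) * X ^ 3 + (-1) * X ^ 2) * two_eq_zero
  · refine ⟨X ^ 5 + X ^ 4 + X ^ 3, ?_⟩
    have hs : ∑ s : Fin 10, C (R s 15) * (X : (ZMod 2)[X]) ^ (s : ℕ) = X ^ 9 + X ^ 7 + X ^ 5 + X ^ 3 := by
      simp [R, Fin.sum_univ_succ]
      try ring
    change (X : (ZMod 2)[X]) ^ 15 - ∑ s : Fin 10, C (R s 15) * (X : (ZMod 2)[X]) ^ (s : ℕ) = _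
    rw [hs]
    unfold g0
    linear_combination ((-1) * X ^ 14 + (-1) * X ^ 13 + (-1) * X ^ 12 + (-1) * X ^ 11 + (-1) * X ^ 10 + (-1) * X ^ 9 + (-1) * X ^ 7 + (-1) * X ^ 6 + (-2) * X ^ 5 + (-1) * X ^ 4 + (-1) * X ^ 3) * two_eq_zero
  · refine ⟨X ^ 6 + X ^ 5 + X ^ 4 + 1, ?_⟩
    have hs : ∑ s : Fin 10, C (R s 16) * (X : (ZMod 2)[X]) ^ (s : ℕ) = X ^ 9 + X ^ 8 + X ^ 7 + X ^ 4 + X ^ 2 + X + 1 := by
      simp [R, Fin.sum_univ_succ]
      try ring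
    change (X : (ZMod 2)[X]) ^ 16 - ∑ s : Fin 10, C (R s 16) * (X : (ZMod 2)[X]) ^ (s : ℕ) = _
    rw [hs]
    unfold g0
    linear_combination ((-1) * X ^ 15 + (-1) * X ^ 14 + (-1) * X ^ 13 + (-1) * X ^ 12 + (-1) * X ^ 11 + (-1) * X ^ 10 + (-1) * X ^ 9 + (-1) * X ^ 8 + (-2) * X ^ 7 + (-2) * X ^ 6 + (-1) * X ^ 5 + (-1) * X ^ 4 + (-1) * X ^ 2 + (-1) * X + (-1) * 1) * two_eq_zero
  · refine ⟨X ^ 7 + X ^ 6 + X ^ 5 + X + 1, ?_⟩
    have hs : ∑ s : Fin 10, C (R s 17) * (X : (ZMod 2)[X]) ^ (s : ℕ) = X ^ 8 + X ^ 7 + X ^ 6 + X ^ 5 + X ^ 3 + 1 := by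
      simp [R, Fin.sum_univ_succ]
      try ring
    change (X : (ZMod 2)[X]) ^ 17 - ∑ s : Fin 10, C (R s 17) * (X : (ZMod 2)[X]) ^ (s : ℕ) = _
    rw [hs]
    unfold g0
    linear_combination ((-1) * X ^ 16 + (-1) * X ^ 15 + (-1) * X ^ 14 + (-1) * X ^ 13 + (-1) * X ^ 12 + (-1) * X ^ 11 + (-1) * X ^ 10 + (-1) * X ^ 9 + (-2) * X ^ 8 + (-3) * X ^ 7 + (-2) * X ^ 6 + (-1) * X ^ 5 + (-1) * X ^ 3 + (-1) * X ^ 2 + (-1) * X + (-1) * 1) * two_eq_zero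
  · refine ⟨X ^ 8 + X ^ 7 + X ^ 6 + X ^ 2 + X, ?_⟩
    have hs : ∑ s : Fin 10, C (R s 18) * (X : (ZMod 2)[X]) ^ (s : ℕ) = X ^ 9 + X ^ 8 + X ^ 7 + X ^ 6 + X ^ 4 + X := by
      simp [R, Fin.sum_univ_succ]
      try ring
    change (X : (ZMod 2)[X]) ^ 18 - ∑ s : Fin 10, C (R s 18) * (X : (ZMod 2)[X]) ^ (s : ℕ) = _
    rw [hs]
    unfold g0
    linear_combination ((-1) * X ^ 17 + (-1) * X ^ 16 + (-1) * X ^ 15 + (-1) * X ^ 14 + (-1) * X ^ 13 + (-1) * X ^ 12 + (-1) * X ^ 11 + (-1) * X ^ 10 + (-2) * X ^ 9 + (-3) * X ^ 8 + (-2) * X ^ 7 + (-1) * X ^ 6 + (-1) * X ^ 4 + (-1) * X ^ 3 + (-1) * X ^ 2 + (-1) * X) * two_eq_zero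
  · refine ⟨X ^ 9 + X ^ 8 + X ^ 7 + X ^ 3 + X ^ 2 + 1, ?_⟩
    have hs : ∑ s : Fin 10, C (R s 19) * (X : (ZMod 2)[X]) ^ (s : ℕ) = X ^ 8 + X ^ 6 + X ^ 5 + X + 1 := by
      simp [R, Fin.sum_univ_succ]
      try ring
    change (X : (ZMod 2)[X]) ^ 19 - ∑ s : Fin 10, C (R s 19) * (X : (ZMod 2)[X]) ^ (s : ℕ) = _
    rw [hs]
    unfold g0
    linear_combination ((-1) * X ^ 18 + (-1) * X ^ 17 + (-1) * X ^ 16 + (-1) * X ^ 15 + (-1) * X ^ 14 + (-1) * X ^ 13 + (-1) * X ^ 12 + (-1) * X ^ 11 + (-2) * X ^ 10 + (-3) * X ^ 9 + (-2) * X ^ 8 + (-1) * X ^ 7 + (-1) * X ^ 6 + (-1) * X ^ 5 + (-1) * X ^ 4 + (-1) * X ^ 3 + (-1) * X ^ 2 + (-1) * X + (-1) * 1) * two_eq_zero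

theorem g0_monic : g0.Monic := by
  unfold g0
  monicity!

theorem g0_natDegree : g0.natDegree = 10 := by
  unfold g0
  compute_degree!

theorem toPoly_sub (A : Fin 10 → Fin 20 → ZMod 2) (c : Fin 20 → ZMod 2) :
    toPoly 20 c - ∑ s : Fin 10, C (∑ j, A s j * c j) * X ^ (s : ℕ)
        = ∑ j : Fin 20, C (c j) *
          ((X : (ZMod 2)[X]) ^ (j : ℕ) - ∑ s : Fin 10, C (A s j) * X ^ (s : ℕ)) := by
  have h1 : ∀ s : Fin 10, C (∑ j, A s j * c j) * (X : (ZMod 2)[X]) ^ (s : ℕ)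
      = ∑ j, C (c j) * (C (A s j) * X ^ (s : ℕ)) := by
    intro s
    rw [map_sum, Finset.sum_mul]
    refine Finset.sum_congr rfl fun j _ => ?_
    rw [map_mul]; ring
  rw [Finset.sum_congr rfl fun s _ => h1 s, Finset.sum_comm, toPoly, ← Finset.sum_sub_distrib]
  refine Finset.sum_congr rfl fun j _ => ?_
  rw [mul_sub, Finset.mul_sum]

theorem sum_swap (A B : Fin 10 → Fin 20 → ZMod 2) (u v : Fin 20 → ZMod 2) :
    ∑ k, ∑ l, u l * v k * (∑ s, A s k * B s l)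
      = ∑ s, (∑ k, A s k * v k) * (∑ l, B s l * u l) := by
  have h1 : ∀ s, (∑ k, A s k * v k) * (∑ l, B s l * u l)
      = ∑ k, ∑ l, (A s k * v k) * (B s l * u l) := fun s => Finset.sum_mul_sum _ _ _ _
  have h2 : ∀ k l, u l * v k * (∑ s, A s k * B s l) = ∑ s, (A s k * v k) * (B s l * u l) := by
    intro k l
    rw [Finset.mul_sum]
    refine Finset.sum_congr rfl fun s _ => ?_
    ring
  calc ∑ k, ∑ l, u l * v k * (∑ s, A s k * B s l)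
      = ∑ k, ∑ l, ∑ s, (A s k * v k) * (B s l * u l) :=
        Finset.sum_congr rfl fun k _ => Finset.sum_congr rfl fun l _ => h2 k l
    _ = ∑ k, ∑ s, ∑ l, (A s k * v k) * (B s l * u l) :=
        Finset.sum_congr rfl fun k _ => Finset.sum_comm
    _ = ∑ s, ∑ k, ∑ l, (A s k * v k) * (B s l * u l) := Finset.sum_comm
    _ = _ := Finset.sum_congr rfl fun s _ => (h1 s).symm

theorem low_poly (a : Fin 10 → ZMod 2) (hd : g0 ∣ ∑ s : Fin 10, C (a s) * X ^ (s : ℕ))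
    (s : Fin 10) : a s = 0 := by
  have hz : ∑ s : Fin 10, C (a s) * (X : (ZMod 2)[X]) ^ (s : ℕ) = 0 := by
    refine eq_zero_of_dvd_of_degree_lt hd ?_
    have hdeg : g0.degree = 10 := by
      rw [degree_eq_natDegree g0_monic.ne_zero, g0_natDegree]; rfl
    rw [hdeg]
    refine lt_of_le_of_lt (degree_sum_le _ _) ?_
    rw [Finset.sup_lt_iff (by exact WithBot.bot_lt_coe 10)]
    intro s _
    refine lt_of_le_of_lt (degree_C_mul_X_pow_le _ _) ?_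
    exact_mod_cast s.2
  have hc := congrArg (fun p => coeff p (s : ℕ)) hz
  simp only [finsetSum_coeff, coeff_C_mul_X_pow, coeff_zero] at hc
  rw [Finset.sum_eq_single s] at hc
  · simpa using hc
  · intro b _ hb
    rw [if_neg]
    intro h
    exact hb (Fin.ext h.symm)
  · intro h; exact absurd (Finset.mem_univ s) h

/-- Divisibility by `g0` is the vanishing of the ten parity checks. -/
theorem dvd_iff (c : Fin 20 → ZMod 2) :
    g0 ∣ toPoly 20 c ↔ ∀ s : Fin 10, ∑ j, R s j * c j = 0 := by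
  have key : g0 ∣ toPoly 20 c - ∑ s : Fin 10, C (∑ j, R s j * c j) * X ^ (s : ℕ) := by
    rw [toPoly_sub]
    exact Finset.dvd_sum fun j _ => Dvd.dvd.mul_left (X_pow_mod j) _
  constructor
  · intro hd
    refine low_poly (fun s => ∑ j, R s j * c j) ?_
    have h3 := dvd_sub hd key
    rwa [sub_sub_cancel] at h3
  · intro h
    have h3 : ∑ s : Fin 10, C (∑ j, R s j * c j) * (X : (ZMod 2)[X]) ^ (s : ℕ) = 0 := by
      refine Finset.sum_eq_zero fun s _ => ?_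
      rw [h s, C_0, zero_mul]
    rw [h3, sub_zero] at key
    exact key

theorem mem_iff (c : Fin 20 → ZMod 2) :
    c ∈ code 20 10 g0 ↔ ∀ s : Fin 10, ∑ j, R s j * c j = 0 := by
  rw [mem_code_iff g0_dvd, dvd_iff]

/-- The half swap. -/
def sw : Equiv.Perm (Fin 20) := Equiv.addRight 10

theorem sw_sw (k : Fin 20) : sw (sw k) = k := by
  revert k; decide

theorem rows_mem (s s' : Fin 10) : ∑ j, R s' j * R s (sw j) = 0 := by
  revert s s'; decide +kernel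

theorem swap_identity (k l : Fin 20) :
    (if l = sw k then (1 : ZMod 2) else 0) = ∑ s, R s k * Q s l + ∑ s, Q s k * R s l := by
  revert k l; decide +kernel

theorem mem_swap (u : Fin 20 → ZMod 2) :
    u ∈ code 20 10 g0 ↔ (fun k => u (sw k)) ∈ dual (code 20 10 g0) := by
  constructor
  · intro hu v hv
    rw [mem_iff] at hu hv
    have h1 : ∀ k, u (sw k) * v k
        = ∑ l, u l * v k * (∑ s, R s k * Q s l) + ∑ l, u l * v k * (∑ s, Q s k * R s l) := by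
      intro k
      rw [← Finset.sum_add_distrib]
      have h5 : ∀ l, u l * v k * (∑ s, R s k * Q s l) + u l * v k * (∑ s, Q s k * R s l)
          = if l = sw k then u l * v k else 0 := by
        intro l
        rw [← mul_add, ← swap_identity, mul_ite, mul_one, mul_zero]
      rw [Finset.sum_congr rfl fun l _ => h5 l, Finset.sum_ite_eq' Finset.univ (sw k)]
      simp
    rw [Finset.sum_congr rfl fun k _ => h1 k, Finset.sum_add_distrib, sum_swap R Q u v,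
      sum_swap Q R u v]
    have h6 : ∑ s, (∑ k, R s k * v k) * (∑ l, Q s l * u l) = 0 :=
      Finset.sum_eq_zero fun s _ => by rw [hv s, zero_mul]
    have h7 : ∑ s, (∑ k, Q s k * v k) * (∑ l, R s l * u l) = 0 :=
      Finset.sum_eq_zero fun s _ => by rw [hu s, mul_zero]
    rw [h6, h7, add_zero]
  · intro hu
    rw [mem_iff]
    intro s
    have h1 : (fun j => R s (sw j)) ∈ code 20 10 g0 := by
      rw [mem_iff]
      intro s'
      exact rows_mem s s'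
    have h2 := hu _ h1
    have h3 : ∑ k, u (sw k) * R s (sw k) = ∑ k, u k * R s k :=
      Equiv.sum_comp sw (fun k => u k * R s k)
    rw [h3] at h2
    rw [← h2]
    exact Finset.sum_congr rfl fun k _ => mul_comm _ _

theorem isoDual : IsIsoDual (code 20 10 g0) := by
  refine ⟨sw, ?_⟩
  ext w
  constructor
  · rintro ⟨u, hu, rfl⟩
    exact (mem_swap u).1 hu
  · intro hw
    refine ⟨fun k => w (sw k), ?_, ?_⟩
    · rw [mem_swap]
      simpa [sw_sw] using hw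
    · funext k
      simp [sw_sw]

theorem g0_sq_ne : g0 ^ 2 ≠ t 20 10 := by
  intro h
  have h1 : (g0 - (X ^ 10 + X ^ 5 + 1)) ^ 2 = 0 := by
    have h2 : (t 20 10 : (ZMod 2)[X]) = (X ^ 10 + X ^ 5 + 1) ^ 2 := by
      unfold t
      linear_combination (-(X ^ 15 + X ^ 10 + X ^ 5)) * two_eq_zero
    rw [h2] at h
    linear_combination h + ((X ^ 10 + X ^ 5 + 1) ^ 2 - g0 * (X ^ 10 + X ^ 5 + 1)) * two_eq_zero
  have h3 : g0 - (X ^ 10 + X ^ 5 + 1) = 0 := by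
    simpa using h1
  have h4 := congrArg (fun p => coeff p 9) h3
  simp [g0, coeff_X] at h4

/-- Q1 is false. -/
theorem result : ¬ Q1 := by
  intro h
  have h1 := h 20 10 (by norm_num) (by norm_num) g0 g0_monic g0_dvd
  exact g0_sq_ne (h1.1 isoDual)

end Pool.Agent.Results.MP_f969e6_lc.IsoDual
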